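import Mathlib
import Pool.Agent.Q273.QP.Stm

/-!
# Project QP (helper273), job QP-BALLS
-/

set_option autoImplicit false

namespace Pool.Agent.Q24.QP

open Q273.QP

variable {p : ℕ} [hp : Fact p.Prime]

theorem norm_pow_nat {x : ℤ_[p]} (hx : x ≠ 0) : ∃ w : ℕ, ‖x‖ = (p : ℝ) ^ (-(w : ℤ)) :=
  ⟨x.valuation, PadicInt.norm_eq_zpow_neg_valuation hx⟩

theorem nonarch_sub (x y : ℤ_[p]) : ‖x - y‖ ≤ max ‖x‖ ‖y‖ := by
  rw [sub_eq_add_neg, ← norm_neg y]
  exact PadicInt.nonarchimedean _ _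

theorem one_lt_p : (1 : ℝ) < p := by exact_mod_cast hp.out.one_lt

theorem zpow_le {m n : ℕ} (h : (p : ℝ) ^ (-(m : ℤ)) ≤ (p : ℝ) ^ (-(n : ℤ))) : n ≤ m := by
  have h1 := (zpow_le_zpow_iff_right₀ (one_lt_p (p := p))).1 h
  omega

theorem zpow_le' {m n : ℕ} (h : n ≤ m) : (p : ℝ) ^ (-(m : ℤ)) ≤ (p : ℝ) ^ (-(n : ℤ)) :=
  zpow_le_zpow_right₀ (one_lt_p (p := p)).le (by omega)

theorem zpow_mul_zpow (m n : ℕ) : (p : ℝ) ^ (-(m : ℤ)) * (p : ℝ) ^ (-(n : ℤ)) =
    (p : ℝ) ^ (-((m + n : ℕ) : ℤ)) := by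
  rw [← zpow_add₀ (by have := one_lt_p (p := p); positivity)]
  congr 1
  push_cast
  ring

theorem zpow_pos' (m : ℕ) : 0 < (p : ℝ) ^ (-(m : ℤ)) := by
  have := one_lt_p (p := p)
  positivity

/-- a square of small norm -/
theorem sq_small {x : ℤ_[p]} {j : ℕ} (h : ‖x‖ * ‖x‖ ≤ (p : ℝ) ^ (-(j : ℤ))) :
    ‖x‖ ≤ (p : ℝ) ^ (-(((j + 1) / 2 : ℕ) : ℤ)) := by
  by_cases hx : x = 0
  · rw [hx, norm_zero]
    exact (zpow_pos' _).le
  · obtain ⟨w, hw⟩ := norm_pow_nat hx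
    rw [hw, zpow_mul_zpow] at h
    have h1 := zpow_le h
    rw [hw]
    exact zpow_le' (by omega)

/-- the valuation of the discriminant -/
theorem val_le {D : ℤ} (hD : D ≠ 0) {n : ℕ} (h : ‖(D : ℤ_[p])‖ ≤ (p : ℝ) ^ (-(n : ℤ))) :
    n ≤ padicValInt p D := by
  rw [PadicInt.norm_int_le_pow_iff_dvd, padicValInt_dvd_iff] at h
  rcases h with h | h
  · exact absurd h hD
  · exact h

theorem balls_aux (a b c : ℤ) (hP : Prim a b c) (hD : dsc a b c ≠ 0) (j : ℕ) :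
    ∃ (z₁ z₂ : ℤ_[p]) (k : ℕ), 2 * j ≤ 2 * k + padicValInt p (dsc a b c) ∧
      ∀ η : ℤ_[p], ‖(a : ℤ_[p]) * η ^ 2 + b * η + c‖ ≤ (p : ℝ) ^ (-(j : ℤ)) →
        ‖η - z₁‖ ≤ (p : ℝ) ^ (-(k : ℤ)) ∨ ‖η - z₂‖ ≤ (p : ℝ) ^ (-(k : ℤ)) := by
  rcases Nat.eq_zero_or_pos j with hj | hj
  · refine ⟨0, 0, 0, by omega, fun η _ => Or.inl ?_⟩
    simpa using PadicInt.norm_le_one η
  by_cases hex : ∃ ξ : ℤ_[p], ‖(a : ℤ_[p]) * ξ ^ 2 + b * ξ + c‖ ≤ (p : ℝ) ^ (-(j : ℤ))
  swap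
  · refine ⟨0, 0, j, by omega, fun η h => absurd ⟨η, h⟩ hex⟩
  obtain ⟨ξ, hξ⟩ := hex
  set P : ℤ_[p] := (a : ℤ_[p]) * ξ ^ 2 + b * ξ + c with hPdef
  set b0 : ℤ_[p] := 2 * a * ξ + b with hb0
  have hj1 : (p : ℝ) ^ (-(j : ℤ)) < 1 := by
    have h1 : (p : ℝ) ^ (-(j : ℤ)) < (p : ℝ) ^ (0 : ℤ) :=
      zpow_lt_zpow_right₀ one_lt_p (by omega)
    simpa using h1
  have hdisc : ((dsc a b c : ℤ) : ℤ_[p]) = b0 * b0 - 4 * a * P := by
    rw [hb0, hPdef]
    unfold dsc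
    push_cast
    ring
  -- the product
  have hprod : ∀ η : ℤ_[p], ‖(a : ℤ_[p]) * η ^ 2 + b * η + c‖ ≤ (p : ℝ) ^ (-(j : ℤ)) →
      ‖(η - ξ) * (a * (η - ξ) + b0)‖ ≤ (p : ℝ) ^ (-(j : ℤ)) := by
    intro η hη
    have h1 : (η - ξ) * (a * (η - ξ) + b0) = ((a : ℤ_[p]) * η ^ 2 + b * η + c) - P := by
      rw [hb0, hPdef]
      ring
    rw [h1]
    exact (nonarch_sub _ _).trans (max_le hη hξ)
  by_cases ha : ‖(a : ℤ_[p])‖ < 1
  · -- `p` divides `a`
    have hb0u : ‖b0‖ = 1 := by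
      by_contra hcon
      have h1 : ‖b0‖ < 1 := lt_of_le_of_ne (PadicInt.norm_le_one _) hcon
      have h2 : ‖(b : ℤ_[p])‖ < 1 := by
        have h3 : (b : ℤ_[p]) = b0 - 2 * ξ * a := by rw [hb0]; ring
        rw [h3]
        refine (nonarch_sub _ _).trans_lt (max_lt h1 ?_)
        rw [norm_mul]
        exact mul_lt_one_of_nonneg_of_lt_one_right (PadicInt.norm_le_one _) (norm_nonneg _) ha
      have h3 : ‖(c : ℤ_[p])‖ < 1 := by
        have h4 : (c : ℤ_[p]) = P - (ξ ^ 2 * a + ξ * b) := by rw [hPdef]; ring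
        rw [h4]
        refine (nonarch_sub _ _).trans_lt (max_lt (hξ.trans_lt hj1) ?_)
        refine (PadicInt.nonarchimedean _ _).trans_lt (max_lt ?_ ?_)
        · rw [norm_mul]
          exact mul_lt_one_of_nonneg_of_lt_one_right (PadicInt.norm_le_one _) (norm_nonneg _) ha
        · rw [norm_mul]
          exact mul_lt_one_of_nonneg_of_lt_one_right (PadicInt.norm_le_one _) (norm_nonneg _) h2
      obtain ⟨x, y, z, hxyz⟩ := hP
      have h4 : (x : ℤ_[p]) * a + y * b + z * c = 1 := by exact_mod_cast congrArg (Int.cast) hxyz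
      have h5 : ‖(x : ℤ_[p]) * a + y * b + z * c‖ < 1 := by
        refine (PadicInt.nonarchimedean _ _).trans_lt (max_lt
          ((PadicInt.nonarchimedean _ _).trans_lt (max_lt ?_ ?_)) ?_)
        all_goals
          rw [norm_mul]
          refine mul_lt_one_of_nonneg_of_lt_one_right (PadicInt.norm_le_one _) (norm_nonneg _) ?_
          assumption
      rw [h4, norm_one] at h5
      exact lt_irrefl _ h5
    refine ⟨ξ, ξ, j, by omega, fun η hη => Or.inl ?_⟩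
    have h1 := hprod η hη
    have h2 : ‖(a : ℤ_[p]) * (η - ξ) + b0‖ = 1 := by
      have h3 : ‖(a : ℤ_[p]) * (η - ξ)‖ < ‖b0‖ := by
        rw [hb0u, norm_mul]
        exact mul_lt_one_of_nonneg_of_lt_one_left (norm_nonneg _) ha (PadicInt.norm_le_one _)
      rw [PadicInt.norm_add_eq_max_of_ne h3.ne, max_eq_right h3.le, hb0u]
    rw [norm_mul, h2, mul_one] at h1
    exact h1
  · -- `p` does not divide `a`
    have ha1 : ‖(a : ℤ_[p])‖ = 1 := le_antisymm (PadicInt.norm_le_one _) (not_lt.1 ha)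
    obtain ⟨u, hu⟩ : ∃ u : ℤ_[p], (a : ℤ_[p]) * u = 1 :=
      isUnit_iff_exists_inv.1 (PadicInt.isUnit_iff.2 ha1)
    have hu1 : ‖u‖ = 1 := by
      have h1 := congrArg (fun z : ℤ_[p] => ‖z‖) hu
      simp only [norm_mul, ha1, one_mul, norm_one] at h1
      exact h1
    set t₁ : ℤ_[p] := -b0 * u with ht₁
    have ht₁n : ‖t₁‖ = ‖b0‖ := by rw [ht₁, norm_mul, hu1, norm_neg, mul_one]
    have hprod' : ∀ η : ℤ_[p], ‖(a : ℤ_[p]) * η ^ 2 + b * η + c‖ ≤ (p : ℝ) ^ (-(j : ℤ)) →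
        ‖η - ξ‖ * ‖η - ξ - t₁‖ ≤ (p : ℝ) ^ (-(j : ℤ)) := by
      intro η hη
      have h1 := hprod η hη
      have h2 : (a : ℤ_[p]) * (η - ξ) + b0 = a * (η - ξ - t₁) := by
        rw [ht₁]
        linear_combination (-b0) * hu
      rw [h2, norm_mul, norm_mul, ha1, one_mul] at h1
      exact h1
    have hnP : ‖4 * (a : ℤ_[p]) * P‖ ≤ (p : ℝ) ^ (-(j : ℤ)) := by
      rw [norm_mul]
      exact (mul_le_of_le_one_left (norm_nonneg _) (PadicInt.norm_le_one _)).trans hξ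
    by_cases hb : ‖b0‖ * ‖b0‖ ≤ (p : ℝ) ^ (-(j : ℤ))
    · refine ⟨ξ, ξ, (j + 1) / 2, ?_, fun η hη => Or.inl ?_⟩
      · have h1 : j ≤ padicValInt p (dsc a b c) := by
          refine val_le hD ?_
          rw [hdisc]
          refine (nonarch_sub _ _).trans (max_le ?_ hnP)
          rw [norm_mul]
          exact hb
        omega
      · refine sq_small ?_
        by_cases h1 : ‖η - ξ‖ ≤ ‖b0‖
        · exact (mul_le_mul h1 h1 (norm_nonneg _) (norm_nonneg _)).trans hb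
        · push Not at h1
          have h2 : ‖η - ξ - t₁‖ = ‖η - ξ‖ := by
            rw [sub_eq_add_neg, PadicInt.norm_add_eq_max_of_ne (by
              rw [norm_neg, ht₁n]
              exact h1.ne'), norm_neg, ht₁n]
            exact max_eq_left h1.le
          have h3 := hprod' η hη
          rw [h2] at h3
          exact h3
    · push Not at hb
      have hb00 : b0 ≠ 0 := by
        intro h0
        rw [h0, norm_zero, mul_zero] at hb
        exact absurd hb (not_lt.2 (zpow_pos' j).le)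
      obtain ⟨w, hw⟩ := norm_pow_nat hb00
      have hwj : 2 * w < j := by
        rw [hw, zpow_mul_zpow] at hb
        by_contra hcon
        push Not at hcon
        exact absurd hb (not_lt.2 (zpow_le' (by omega)))
      have hval : w + w ≤ padicValInt p (dsc a b c) := by
        refine val_le hD ?_
        rw [hdisc]
        refine (nonarch_sub _ _).trans (max_le ?_ (hnP.trans (zpow_le' (by omega))))
        rw [norm_mul, hw, zpow_mul_zpow]
      have hdiv : ∀ r : ℝ, r * ‖b0‖ ≤ (p : ℝ) ^ (-(j : ℤ)) → r ≤ (p : ℝ) ^ (-((j - w : ℕ) : ℤ)) := by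
        intro r hr
        rw [hw] at hr
        have h1 : (p : ℝ) ^ (-(j : ℤ)) = (p : ℝ) ^ (-((j - w : ℕ) : ℤ)) * (p : ℝ) ^ (-(w : ℤ)) := by
          rw [zpow_mul_zpow]
          congr 3
          omega
        rw [h1] at hr
        exact le_of_mul_le_mul_right hr (zpow_pos' w)
      refine ⟨ξ, ξ + t₁, j - w, by omega, fun η hη => ?_⟩
      have h1 := hprod' η hη
      by_cases h2 : ‖η - ξ‖ < ‖b0‖
      · left
        have h3 : ‖η - ξ - t₁‖ = ‖b0‖ := by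
          rw [sub_eq_add_neg, PadicInt.norm_add_eq_max_of_ne (by
            rw [norm_neg, ht₁n]
            exact h2.ne), norm_neg, ht₁n]
          exact max_eq_right h2.le
        rw [h3] at h1
        exact hdiv _ h1
      · right
        push Not at h2
        rw [← sub_sub]
        refine hdiv _ (le_trans ?_ h1)
        rw [mul_comm]
        exact mul_le_mul_of_nonneg_right h2 (norm_nonneg _)

theorem balls : S_BALLS := by
  intro p a b c hP hD j
  have : Fact p.1.Prime := ⟨p.2⟩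
  exact balls_aux (p := p.1) a b c hP hD j

end Pool.Agent.Q24.QP
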