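import Pool.Agent.Q57.QP.Stm

/-! # QP-DIFF: local coordinates, completed -/

set_option autoImplicit false

namespace Pool.Agent.Q24.QP

open MeasureTheory MvPolynomial Topology
open Pool.Agent.Q57.QP Pool.Agent.Y230.PT Pool.Agent.Y230.PS

theorem qp_diff : StDiffN → StFree → StDiff := by
  intro hD hF p _ σ _ _ c g L s h h' P m hs hg hdet hh hLP
  classical
  have hinj : Function.Injective s := by
    intro u u' huu
    by_contra hne
    refine hdet (Matrix.det_zero_of_row_eq hne ?_)
    funext t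
    simp only [Matrix.of_apply, huu]
  obtain ⟨Φ, hΦ⟩ : ∃ Φ : (σ → ℚ_[p]) → σ → ℚ_[p],
      Φ = fun x i => if hi : ∃ t, s t = i then g hi.choose x else x i := ⟨_, rfl⟩
  obtain ⟨A0, hA0⟩ : ∃ A0 : (σ → ℚ_[p]) →L[ℚ_[p]] (σ → ℚ_[p]),
      A0 = ContinuousLinearMap.pi fun i => if hi : ∃ t, s t = i then L hi.choose else
        (ContinuousLinearMap.proj i : (σ → ℚ_[p]) →L[ℚ_[p]] ℚ_[p]) := ⟨_, rfl⟩
  have hch : ∀ t (hi : ∃ t', s t' = s t), hi.choose = t := fun t hi => hinj hi.choose_spec
  have hΦs : ∀ x t, Φ x (s t) = g t x := by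
    intro x t
    have hi : ∃ t', s t' = s t := ⟨t, rfl⟩
    rw [hΦ]
    simp only
    rw [dif_pos hi, hch t hi]
  have hAs : ∀ v t, A0 v (s t) = L t v := by
    intro v t
    have hi : ∃ t', s t' = s t := ⟨t, rfl⟩
    rw [hA0, ContinuousLinearMap.coe_pi']
    simp only
    rw [dif_pos hi, hch t hi]
  have hAn : ∀ v i, (¬ ∃ t, s t = i) → A0 v i = v i := by
    intro v i hi
    rw [hA0, ContinuousLinearMap.coe_pi']
    simp only
    rw [dif_neg hi]
    rfl
  have hder : HasStrictFDerivAt Φ A0 P := by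
    rw [hΦ, hA0]
    refine hasStrictFDerivAt_pi.2 fun i => ?_
    by_cases hi : ∃ t, s t = i
    · simp only [dif_pos hi]
      exact hg _
    · simp only [dif_neg hi]
      exact (ContinuousLinearMap.proj i : (σ → ℚ_[p]) →L[ℚ_[p]] ℚ_[p]).hasStrictFDerivAt
  have hA0inj : Function.Injective (A0 : (σ → ℚ_[p]) →ₗ[ℚ_[p]] (σ → ℚ_[p])) := by
    rw [← LinearMap.ker_eq_bot, LinearMap.ker_eq_bot']
    intro v hv
    have hv' : ∀ i, A0 v i = 0 := fun i => congrFun hv i
    have h1 : ∀ i, (¬ ∃ t, s t = i) → v i = 0 := by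
      intro i hi
      rw [← hAn v i hi]
      exact hv' i
    have h2 : v = ∑ u, v (s u) • (Pi.single (s u) (1 : ℚ_[p]) : σ → ℚ_[p]) := by
      funext i
      rw [Finset.sum_apply]
      simp only [Pi.smul_apply, smul_eq_mul]
      by_cases hi : ∃ t, s t = i
      · obtain ⟨t, rfl⟩ := hi
        rw [Finset.sum_eq_single t]
        · simp
        · intro b _ hb
          rw [Pi.single_eq_of_ne (fun h => hb (hinj h).symm), mul_zero]
        · intro h
          exact absurd (Finset.mem_univ _) h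
      · rw [h1 i hi]
        symm
        refine Finset.sum_eq_zero fun u _ => ?_
        rw [Pi.single_eq_of_ne (fun h => hi ⟨u, h.symm⟩), mul_zero]
    have h3 : Matrix.vecMul (fun u => v (s u))
        (Matrix.of fun u t => L t (Pi.single (s u) 1)) = 0 := by
      funext t
      have h4 : L t v = 0 := by
        rw [← hAs v t]
        exact hv' _
      rw [h2, map_sum] at h4
      simp only [map_smul, smul_eq_mul] at h4
      rw [Pi.zero_apply, ← h4]
      rfl
    have h5 := Matrix.eq_zero_of_vecMul_eq_zero hdet h3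
    funext i
    by_cases hi : ∃ t, s t = i
    · obtain ⟨t, rfl⟩ := hi
      exact congrFun h5 t
    · exact h1 i hi
  obtain ⟨A, hA⟩ : ∃ A : (σ → ℚ_[p]) ≃L[ℚ_[p]] (σ → ℚ_[p]),
      (A : (σ → ℚ_[p]) →L[ℚ_[p]] (σ → ℚ_[p])) = A0 := by
    refine ⟨(LinearEquiv.ofInjectiveEndo _ hA0inj).toContinuousLinearEquiv, ?_⟩
    ext v i
    rfl
  rw [← hA] at hder
  have hsize : Siz (fun y : σ → ℚ_[p] => h' fun t => y (s t)) :=
    ⟨hs.cont.comp (continuous_pi fun t => continuous_apply (s t)), fun x => hs.val _⟩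
  refine hD p Φ A P h (fun y => h' fun t => y (s t)) m hsize hder ?_ ?_
  · filter_upwards [hh] with x hx
    rw [hx]
    congr 1
    funext t
    exact (hΦs x t).symm
  · refine hF p c s hinj h' m (Φ P) hs ?_
    have h6 : (fun t => Φ P (s t)) = fun t => g t P := by
      funext t
      exact hΦs P t
    rw [h6]
    exact hLP

end Pool.Agent.Q24.QP
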